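import Mathlib

/-!
# A closed maximal eventually different family of permutations

We build a subset `F` of Baire space `ℕ → ℕ`, all of whose members are bijections, which is closed
in `ℕ → ℕ`, eventually different, and such that each permutation of `ℕ` agrees infinitely often
with some member of `F`.

The members of `F` are indexed by all sequences `x : ℕ → Lab` of labels.  For each such `x` two
perfect matchings between two copies of `ℕ` are built by stages; stage `i` only looks at the first
`i + 1` labels, which are summarised by a finite list `t`.  A stage takes a square: unused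
left and right vertices `va t`, `vb t` and fresh vertices `va' t`, `vb' t` coding `t`.  The coding
matching gets the edges `(va t, vb' t)` and `(va' t, vb t)`; the switched version of the
square is `(va t, vb t)` and `(va' t, vb' t)`.
-/

set_option autoImplicit false

namespace Pool.Agent.Lib.MP_6a83a4_lc.ClosedMed

/-! ## Restrictions of sequences -/

/-- The list of the first `n` values of `x`, the newest one being the head. -/
def res {α : Type} (x : ℕ → α) : ℕ → List α
  | 0 => []
  | n + 1 => x n :: res x n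

section Res

variable {α : Type}

@[simp] theorem res_zero (x : ℕ → α) : res x 0 = [] := rfl

@[simp] theorem res_succ (x : ℕ → α) (n : ℕ) : res x (n + 1) = x n :: res x n := rfl

@[simp] theorem res_length (x : ℕ → α) (n : ℕ) : (res x n).length = n := by
  induction n with
  | zero => rfl
  | succ n ih => simp [ih]

theorem res_eq_iff {x y : ℕ → α} {n : ℕ} : res x n = res y n ↔ ∀ m < n, x m = y m := by
  induction n with
  | zero => simp
  | succ n ih =>
    simp only [res_succ, List.cons.injEq, ih]
    constructor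
    · rintro ⟨h1, h2⟩ m hm
      rcases Nat.lt_succ_iff_lt_or_eq.mp hm with h | h
      · exact h2 m h
      · rw [h]; exact h1
    · intro h
      exact ⟨h n (Nat.lt_succ_self n), fun m hm => h m (Nat.lt_succ_of_lt hm)⟩

theorem res_mono_eq {x y : ℕ → α} {m n : ℕ} (h : res x n = res y n) (hm : m ≤ n) :
    res x m = res y m := by
  rw [res_eq_iff] at h ⊢
  exact fun k hk => h k (lt_of_lt_of_le hk hm)

theorem res_suffix (x : ℕ → α) {m n : ℕ} (h : m ≤ n) : res x m <:+ res x n := by
  induction n with
  | zero =>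
    have : m = 0 := Nat.le_zero.mp h
    subst this
    exact List.suffix_refl _
  | succ n ih =>
    rcases Nat.of_le_succ h with h | h
    · exact (ih h).trans (List.suffix_cons _ _)
    · subst h; exact List.suffix_refl _

/-- Equal restrictions have equal lengths. -/
theorem res_len_eq {x y : ℕ → α} {m n : ℕ} (h : res x m = res y n) : m = n := by
  have := congrArg List.length h
  simpa using this

theorem eq_of_res {x y : ℕ → α} (h : ∀ n, res x n = res y n) : x = y := by
  funext n
  exact (res_eq_iff.mp (h (n + 1))) n (Nat.lt_succ_self n)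

/-- A chain of lists under the suffix relation, with lengths tending to infinity, consists of
restrictions of one sequence. -/
theorem exists_limit [Inhabited α] (t : ℕ → List α) (ht : ∀ n, t n <:+ t (n + 1))
    (hl : ∀ n, n ≤ (t n).length) : ∃ x : ℕ → α, ∀ n, t n = res x (t n).length := by
  have hmono : ∀ m n, m ≤ n → t m <:+ t n := by
    intro m n h
    induction n with
    | zero =>
      have : m = 0 := Nat.le_zero.mp h
      subst this
      exact List.suffix_refl _
    | succ n ih =>
      rcases Nat.of_le_succ h with h | h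
      · exact (ih h).trans (ht n)
      · subst h; exact List.suffix_refl _
  let x : ℕ → α := fun i => ((t (i + 1)).reverse[i]?).getD default
  have key : ∀ n i, i < (t n).length → (t n).reverse[i]? = some (x i) := by
    intro n i hi
    have h1 : i < (t (i + 1)).length := lt_of_lt_of_le (Nat.lt_succ_self i) (hl (i + 1))
    have h2 : (t (i + 1)).reverse[i]? = some (x i) := by
      have h3 : i < (t (i + 1)).reverse.length := by simpa using h1
      simp only [x]
      rw [List.getElem?_eq_getElem h3]
      rfl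
    rcases le_total n (i + 1) with h | h
    · have h4 : (t n).reverse <+: (t (i + 1)).reverse := List.reverse_prefix.mpr (hmono _ _ h)
      have h5 : i < (t n).reverse.length := by simpa using hi
      rw [← h2]
      obtain ⟨r, hr⟩ := h4
      rw [← hr, List.getElem?_append_left h5]
    · have h4 : (t (i + 1)).reverse <+: (t n).reverse := List.reverse_prefix.mpr (hmono _ _ h)
      have h5 : i < (t (i + 1)).reverse.length := by simpa using h1
      rw [← h2]
      obtain ⟨r, hr⟩ := h4
      rw [← hr, List.getElem?_append_left h5]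
  have res_rev : ∀ (n i : ℕ), i < n → (res x n).reverse[i]? = some (x i) := by
    intro n
    induction n with
    | zero => intro i hi; omega
    | succ n ih =>
      intro i hi
      rw [res_succ, List.reverse_cons]
      rcases Nat.lt_succ_iff_lt_or_eq.mp hi with h | h
      · rw [List.getElem?_append_left (by simpa using h)]
        exact ih i h
      · subst h
        rw [List.getElem?_append_right (by simp)]
        simp
  refine ⟨x, fun n => ?_⟩
  apply List.reverse_injective
  apply List.ext_getElem?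
  intro i
  by_cases hi : i < (t n).length
  · rw [key n i hi, res_rev _ i hi]
  · rw [List.getElem?_eq_none (by simpa using hi), List.getElem?_eq_none (by simpa using hi)]

end Res

/-! ## The squares -/

/-- Labels. -/
abbrev Lab := List (ℕ × ℕ)

/-- The edge offered by a label. -/
def off : Lab → ℕ × ℕ
  | [] => (0, 0)
  | p :: u => (u.length, p.1)

theorem off_res (h : ℕ → ℕ × ℕ) (a : ℕ) : off (res h (a + 1)) = (a, (h a).1) := by
  simp [off]

/-- The edge we would like to use at a stage: at even stages the one offered by the newest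
label, at the odd stage `2 * k + 1` the edge `(k, k)`. -/
def wish : List Lab → ℕ × ℕ
  | [] => (0, 0)
  | v :: s => if s.length % 2 = 0 then off v else (s.length / 2, s.length / 2)

theorem wish_cons (v : Lab) (s : List Lab) :
    wish (v :: s) = if s.length % 2 = 0 then off v else (s.length / 2, s.length / 2) := rfl

/-- A strict upper bound of two finite sets. -/
def bnd (D R : Finset ℕ) : ℕ := (D ∪ R).sup id + 1

theorem lt_bnd_left {D R : Finset ℕ} {n : ℕ} (h : n ∈ D) : n < bnd D R := by
  have h1 : n ∈ D ∪ R := Finset.mem_union_left _ h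
  have h2 : id n ≤ (D ∪ R).sup id := Finset.le_sup h1
  exact Nat.lt_succ_of_le h2

theorem lt_bnd_right {D R : Finset ℕ} {n : ℕ} (h : n ∈ R) : n < bnd D R := by
  have h1 : n ∈ D ∪ R := Finset.mem_union_right _ h
  have h2 : id n ≤ (D ∪ R).sup id := Finset.le_sup h1
  exact Nat.lt_succ_of_le h2

/-- The left and the right vertices used up to a stage. -/
def DR : List Lab → Finset ℕ × Finset ℕ
  | [] => (∅, ∅)
  | v :: s =>
    (insert (if (wish (v :: s)).1 ∈ (DR s).1 then bnd (DR s).1 (DR s).2 else (wish (v :: s)).1)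
      (insert (2 * Nat.pair (Encodable.encode (v :: s))
        (bnd (DR s).1 (DR s).2 + (wish (v :: s)).1 + (wish (v :: s)).2 + 1) + 1) (DR s).1),
     insert (if (wish (v :: s)).2 ∈ (DR s).2 then bnd (DR s).1 (DR s).2 else (wish (v :: s)).2)
      (insert (Nat.pair (Encodable.encode (v :: s))
        (bnd (DR s).1 (DR s).2 + (wish (v :: s)).1 + (wish (v :: s)).2 + 1)) (DR s).2))

def D (s : List Lab) : Finset ℕ := (DR s).1
def R (s : List Lab) : Finset ℕ := (DR s).2
def N (s : List Lab) : ℕ := bnd (D s) (R s)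

def va (t : List Lab) : ℕ := if (wish t).1 ∈ D t.tail then N t.tail else (wish t).1
def vb (t : List Lab) : ℕ := if (wish t).2 ∈ R t.tail then N t.tail else (wish t).2
def dd (t : List Lab) : ℕ := N t.tail + (wish t).1 + (wish t).2 + 1
def va' (t : List Lab) : ℕ := 2 * Nat.pair (Encodable.encode t) (dd t) + 1
def vb' (t : List Lab) : ℕ := Nat.pair (Encodable.encode t) (dd t)

theorem D_nil : D [] = ∅ := rfl
theorem R_nil : R [] = ∅ := rfl

theorem D_cons (v : Lab) (s : List Lab) :
    D (v :: s) = insert (va (v :: s)) (insert (va' (v :: s)) (D s)) := rfl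

theorem R_cons (v : Lab) (s : List Lab) :
    R (v :: s) = insert (vb (v :: s)) (insert (vb' (v :: s)) (R s)) := rfl

theorem D_lt {s : List Lab} {n : ℕ} (h : n ∈ D s) : n < N s := lt_bnd_left h
theorem R_lt {s : List Lab} {n : ℕ} (h : n ∈ R s) : n < N s := lt_bnd_right h

theorem va_notMem (t : List Lab) : va t ∉ D t.tail := by
  unfold va
  split_ifs with h
  · intro h1; exact absurd (D_lt h1) (lt_irrefl _)
  · exact h

theorem vb_notMem (t : List Lab) : vb t ∉ R t.tail := by
  unfold vb
  split_ifs with h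
  · intro h1; exact absurd (R_lt h1) (lt_irrefl _)
  · exact h

theorem va_lt_dd (t : List Lab) : va t < dd t := by
  unfold va dd
  split_ifs <;> omega

theorem vb_lt_dd (t : List Lab) : vb t < dd t := by
  unfold vb dd
  split_ifs <;> omega

theorem N_lt_dd (t : List Lab) : N t.tail < dd t := by
  unfold dd
  omega

theorem dd_le_vb' (t : List Lab) : dd t ≤ vb' t := Nat.right_le_pair _ _

theorem dd_lt_va' (t : List Lab) : dd t < va' t := by
  have := Nat.right_le_pair (Encodable.encode t) (dd t)
  unfold va'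
  omega

theorem va'_notMem (t : List Lab) : va' t ∉ D t.tail := by
  intro h
  have h1 := D_lt h
  have h2 := N_lt_dd t
  have h3 := dd_lt_va' t
  omega

theorem vb'_notMem (t : List Lab) : vb' t ∉ R t.tail := by
  intro h
  have h1 := R_lt h
  have h2 := N_lt_dd t
  have h3 := dd_le_vb' t
  omega

theorem va_ne (t : List Lab) : va t ≠ va' t := by
  have h2 := va_lt_dd t
  have h3 := dd_lt_va' t
  omega

theorem vb_ne (t : List Lab) : vb t ≠ vb' t := by
  have h2 := vb_lt_dd t
  have h3 := dd_le_vb' t
  omega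

theorem va_lt_vb' (t : List Lab) : va t < vb' t := lt_of_lt_of_le (va_lt_dd t) (dd_le_vb' t)
theorem vb_lt_va' (t : List Lab) : vb t < va' t := (vb_lt_dd t).trans (dd_lt_va' t)

theorem va'_inj {t t' : List Lab} (h : va' t = va' t') : t = t' := by
  unfold va' at h
  have h1 : Nat.pair (Encodable.encode t) (dd t) = Nat.pair (Encodable.encode t') (dd t') := by
    omega
  exact Encodable.encode_injective (Nat.pair_eq_pair.mp h1).1

theorem vb'_inj {t t' : List Lab} (h : vb' t = vb' t') : t = t' :=
  Encodable.encode_injective (Nat.pair_eq_pair.mp h).1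

theorem va'_odd (t : List Lab) : va' t % 2 = 1 := by
  unfold va'; omega

/-- The coding edges of the stage `t`. -/
def P (t : List Lab) (n m : ℕ) : Prop := (n = va t ∧ m = vb' t) ∨ (n = va' t ∧ m = vb t)

/-- Coding edges, and the extra edges of a switched square. -/
def NX (t : List Lab) (n m : ℕ) : Prop := P t n m ∨ (n = va' t ∧ m = vb' t)

theorem NX_unique {t t' : List Lab} {n m : ℕ} (h : NX t n m) (h' : NX t' n m) : t = t' := by
  have e1 := va_lt_vb' t
  have e2 := vb_lt_va' t
  have e3 := va_lt_vb' t'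
  have e4 := vb_lt_va' t'
  unfold NX P at h h'
  rcases h with (⟨h1, h2⟩ | ⟨h1, h2⟩) | ⟨h1, h2⟩ <;> rcases h' with (⟨h3, h4⟩ | ⟨h3, h4⟩) | ⟨h3, h4⟩
  · exact vb'_inj (h2.symm.trans h4)
  · omega
  · exact vb'_inj (h2.symm.trans h4)
  · omega
  · exact va'_inj (h1.symm.trans h3)
  · exact va'_inj (h1.symm.trans h3)
  · exact vb'_inj (h2.symm.trans h4)
  · exact va'_inj (h1.symm.trans h3)
  · exact va'_inj (h1.symm.trans h3)

theorem P_unique {t t' : List Lab} {n m : ℕ} (h : P t n m) (h' : P t' n m) : t = t' :=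
  NX_unique (Or.inl h) (Or.inl h')

/-! ## The matchings -/

theorem D_mono (x : ℕ → Lab) {i j : ℕ} (h : i ≤ j) : D (res x i) ⊆ D (res x j) := by
  induction j with
  | zero =>
    have : i = 0 := Nat.le_zero.mp h
    subst this
    exact Finset.Subset.refl _
  | succ j ih =>
    rcases Nat.of_le_succ h with h | h
    · refine (ih h).trans ?_
      rw [res_succ, D_cons]
      exact (Finset.subset_insert _ _).trans (Finset.subset_insert _ _)
    · subst h; exact Finset.Subset.refl _

theorem R_mono (x : ℕ → Lab) {i j : ℕ} (h : i ≤ j) : R (res x i) ⊆ R (res x j) := by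
  induction j with
  | zero =>
    have : i = 0 := Nat.le_zero.mp h
    subst this
    exact Finset.Subset.refl _
  | succ j ih =>
    rcases Nat.of_le_succ h with h | h
    · refine (ih h).trans ?_
      rw [res_succ, R_cons]
      exact (Finset.subset_insert _ _).trans (Finset.subset_insert _ _)
    · subst h; exact Finset.Subset.refl _

/-- Enumeration of the left vertices. -/
def lft (x : ℕ → Lab) (p : ℕ × Bool) : ℕ :=
  if p.2 then va' (res x (p.1 + 1)) else va (res x (p.1 + 1))

/-- Enumeration of the right vertices. -/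
def rgt (x : ℕ → Lab) (p : ℕ × Bool) : ℕ :=
  if p.2 then vb' (res x (p.1 + 1)) else vb (res x (p.1 + 1))

theorem lft_mem (x : ℕ → Lab) (i : ℕ) (e : Bool) : lft x (i, e) ∈ D (res x (i + 1)) := by
  rw [res_succ, D_cons]
  cases e
  · exact Finset.mem_insert_self _ _
  · exact Finset.mem_insert_of_mem (Finset.mem_insert_self _ _)

theorem rgt_mem (x : ℕ → Lab) (i : ℕ) (e : Bool) : rgt x (i, e) ∈ R (res x (i + 1)) := by
  rw [res_succ, R_cons]
  cases e
  · exact Finset.mem_insert_self _ _
  · exact Finset.mem_insert_of_mem (Finset.mem_insert_self _ _)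

theorem lft_notMem (x : ℕ → Lab) (i : ℕ) (e : Bool) : lft x (i, e) ∉ D (res x i) := by
  cases e
  · exact va_notMem (res x (i + 1))
  · exact va'_notMem (res x (i + 1))

theorem rgt_notMem (x : ℕ → Lab) (i : ℕ) (e : Bool) : rgt x (i, e) ∉ R (res x i) := by
  cases e
  · exact vb_notMem (res x (i + 1))
  · exact vb'_notMem (res x (i + 1))

theorem lft_injective (x : ℕ → Lab) : Function.Injective (lft x) := by
  rintro ⟨i, e⟩ ⟨j, e'⟩ h
  rcases lt_trichotomy i j with hij | hij | hij
  · exact absurd (D_mono x (Nat.succ_le_of_lt hij) (lft_mem x i e)) (h ▸ lft_notMem x j e')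
  · subst hij
    cases e <;> cases e'
    · rfl
    · exact absurd h (va_ne _)
    · exact absurd h.symm (va_ne _)
    · rfl
  · exact absurd (D_mono x (Nat.succ_le_of_lt hij) (lft_mem x j e')) (h ▸ lft_notMem x i e)

theorem rgt_injective (x : ℕ → Lab) : Function.Injective (rgt x) := by
  rintro ⟨i, e⟩ ⟨j, e'⟩ h
  rcases lt_trichotomy i j with hij | hij | hij
  · exact absurd (R_mono x (Nat.succ_le_of_lt hij) (rgt_mem x i e)) (h ▸ rgt_notMem x j e')
  · subst hij
    cases e <;> cases e'
    · rfl
    · exact absurd h (vb_ne _)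
    · exact absurd h.symm (vb_ne _)
    · rfl
  · exact absurd (R_mono x (Nat.succ_le_of_lt hij) (rgt_mem x j e')) (h ▸ rgt_notMem x i e)

theorem mem_D_of (x : ℕ → Lab) (n i : ℕ) (h : n ∈ D (res x i)) :
    ∃ j, j < i ∧ ∃ e, lft x (j, e) = n := by
  induction i with
  | zero => simp [D_nil] at h
  | succ i ih =>
    rw [res_succ, D_cons, Finset.mem_insert, Finset.mem_insert] at h
    rcases h with h | h | h
    · exact ⟨i, Nat.lt_succ_self i, false, h.symm⟩
    · exact ⟨i, Nat.lt_succ_self i, true, h.symm⟩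
    · obtain ⟨j, hj, e, he⟩ := ih h
      exact ⟨j, Nat.lt_succ_of_lt hj, e, he⟩

theorem mem_R_of (x : ℕ → Lab) (n i : ℕ) (h : n ∈ R (res x i)) :
    ∃ j, j < i ∧ ∃ e, rgt x (j, e) = n := by
  induction i with
  | zero => simp [R_nil] at h
  | succ i ih =>
    rw [res_succ, R_cons, Finset.mem_insert, Finset.mem_insert] at h
    rcases h with h | h | h
    · exact ⟨i, Nat.lt_succ_self i, false, h.symm⟩
    · exact ⟨i, Nat.lt_succ_self i, true, h.symm⟩
    · obtain ⟨j, hj, e, he⟩ := ih h
      exact ⟨j, Nat.lt_succ_of_lt hj, e, he⟩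

theorem wish_odd (x : ℕ → Lab) (k : ℕ) : wish (res x (2 * k + 1 + 1)) = (k, k) := by
  have h1 : (res x (2 * k + 1)).length = 2 * k + 1 := res_length _ _
  rw [res_succ, wish_cons, h1, if_neg (by omega)]
  have : (2 * k + 1) / 2 = k := by omega
  rw [this]

theorem mem_D_all (x : ℕ → Lab) (k : ℕ) : k ∈ D (res x (2 * k + 1 + 1)) := by
  by_cases h : k ∈ D (res x (2 * k + 1))
  · exact D_mono x (Nat.le_succ _) h
  · have h1 : va (res x (2 * k + 1 + 1)) = k := by
      unfold va
      rw [wish_odd]
      exact if_neg h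
    have h2 := lft_mem x (2 * k + 1) false
    have h3 : lft x (2 * k + 1, false) = va (res x (2 * k + 1 + 1)) := rfl
    rw [h3, h1] at h2
    exact h2

theorem mem_R_all (x : ℕ → Lab) (k : ℕ) : k ∈ R (res x (2 * k + 1 + 1)) := by
  by_cases h : k ∈ R (res x (2 * k + 1))
  · exact R_mono x (Nat.le_succ _) h
  · have h1 : vb (res x (2 * k + 1 + 1)) = k := by
      unfold vb
      rw [wish_odd]
      exact if_neg h
    have h2 := rgt_mem x (2 * k + 1) false
    have h3 : rgt x (2 * k + 1, false) = vb (res x (2 * k + 1 + 1)) := rfl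
    rw [h3, h1] at h2
    exact h2

theorem lft_surjective (x : ℕ → Lab) : Function.Surjective (lft x) := by
  intro n
  obtain ⟨j, -, e, he⟩ := mem_D_of x n _ (mem_D_all x n)
  exact ⟨(j, e), he⟩

theorem rgt_surjective (x : ℕ → Lab) : Function.Surjective (rgt x) := by
  intro n
  obtain ⟨j, -, e, he⟩ := mem_R_of x n _ (mem_R_all x n)
  exact ⟨(j, e), he⟩

/-- The left enumeration as an equivalence. -/
noncomputable def eL (x : ℕ → Lab) : ℕ × Bool ≃ ℕ :=
  Equiv.ofBijective (lft x) ⟨lft_injective x, lft_surjective x⟩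

/-! ## The good permutations -/

/-- The almost disjoint family of sets `A g`. -/
def A (g : ℕ → ℕ) (a : ℕ) : Prop := ∃ j, a = 2 * Nat.pair (Encodable.encode (res g j)) j

/-- `a'` witnesses that `a` is not a dead end of `g`. -/
def W (g : ℕ → ℕ) (a a' : ℕ) : Prop :=
  A g a' ∧ ∃ t t', P t a (g a) ∧ P t' a' (g a') ∧ t <:+ t' ∧ t ≠ t'

open Classical in
/-- The least witness plus one, or zero if there is none. -/
noncomputable def w (g : ℕ → ℕ) (a : ℕ) : ℕ := if h : ∃ a', W g a a' then Nat.find h + 1 else 0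

noncomputable def hh (g : ℕ → ℕ) : ℕ → ℕ × ℕ := fun n => (g n, w g n)

def cand (g : ℕ → ℕ) (s : List Lab) (a : ℕ) : Prop :=
  s.length ≤ a ∧ A g a ∧ w g a = 0 ∧ a ∉ D s ∧ g a ∉ R s

noncomputable def nxt (g : ℕ → ℕ) (s : List Lab) : ℕ := sInf {a | cand g s a}

noncomputable def xs (g : ℕ → ℕ) : ℕ → List Lab
  | 0 => []
  | i + 1 => res (hh g) (nxt g (xs g i) + 1) :: xs g i

noncomputable def xg (g : ℕ → ℕ) : ℕ → Lab := fun i => res (hh g) (nxt g (xs g i) + 1)

theorem res_xg (g : ℕ → ℕ) (i : ℕ) : res (xg g) i = xs g i := by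
  induction i with
  | zero => rfl
  | succ i ih => rw [res_succ, ih]; rfl

theorem xs_length (g : ℕ → ℕ) (i : ℕ) : (xs g i).length = i := by
  rw [← res_xg, res_length]

def Good (g : ℕ → ℕ) : Prop := ∀ i, ∃ a, cand g (xs g i) a

/-- The stages at which the square is switched. -/
def τ (t : List Lab) : Prop := ∃ g, Good g ∧ ∃ k, t = xs g (2 * k + 1)

theorem nxt_cand {g : ℕ → ℕ} (hg : Good g) (i : ℕ) : cand g (xs g i) (nxt g (xs g i)) := by
  have : (nxt g (xs g i)) ∈ {a | cand g (xs g i) a} := Nat.sInf_mem (hg i)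
  exact this

theorem A_even {g : ℕ → ℕ} {a : ℕ} (h : A g a) : a % 2 = 0 := by
  obtain ⟨j, rfl⟩ := h
  omega

theorem A_local {g g' : ℕ → ℕ} {a : ℕ} (h : ∀ n < a, g n = g' n) (ha : A g a) : A g' a := by
  obtain ⟨j, hj⟩ := ha
  have h1 : j ≤ a := by
    have := Nat.right_le_pair (Encodable.encode (res g j)) j
    omega
  have h2 : res g j = res g' j := res_eq_iff.mpr (fun n hn => h n (lt_of_lt_of_le hn h1))
  exact ⟨j, by rw [← h2]; exact hj⟩

theorem A_inter {g g' : ℕ → ℕ} (h : {a | A g a ∧ A g' a}.Infinite) : g = g' := by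
  apply eq_of_res
  intro n
  by_contra hne
  apply h
  apply Set.Finite.subset (Finset.finite_toSet
    ((Finset.range n).image (fun j => 2 * Nat.pair (Encodable.encode (res g j)) j)))
  rintro a ⟨⟨j, hj⟩, ⟨j', hj'⟩⟩
  have h1 : Nat.pair (Encodable.encode (res g j)) j = Nat.pair (Encodable.encode (res g' j')) j' := by
    omega
  obtain ⟨h2, h3⟩ := Nat.pair_eq_pair.mp h1
  subst h3
  have h4 : res g j = res g' j := Encodable.encode_injective h2
  have h5 : j < n := by
    by_contra h6
    exact hne (res_mono_eq h4 (not_lt.mp h6))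
  simp only [Finset.coe_image, Set.mem_image, Finset.coe_range, Set.mem_Iio]
  exact ⟨j, h5, hj.symm⟩

theorem A_infinite (g : ℕ → ℕ) : {a | A g a}.Infinite := by
  apply Set.infinite_of_injective_forall_mem
    (f := fun j => 2 * Nat.pair (Encodable.encode (res g j)) j)
  · intro j j' h
    have h1 : Nat.pair (Encodable.encode (res g j)) j =
        Nat.pair (Encodable.encode (res g j')) j' := by
      have : 2 * Nat.pair (Encodable.encode (res g j)) j =
        2 * Nat.pair (Encodable.encode (res g j')) j' := h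
      omega
    exact (Nat.pair_eq_pair.mp h1).2
  · intro j
    exact ⟨j, rfl⟩

theorem W_local {g g' : ℕ → ℕ} {a a' : ℕ} (h : ∀ n ≤ max a a', g n = g' n) (hw : W g a a') :
    W g' a a' := by
  obtain ⟨h1, t, t', h2, h3, h4, h5⟩ := hw
  refine ⟨A_local (fun n hn => h n (le_trans hn.le (le_max_right _ _))) h1, t, t', ?_, ?_, h4, h5⟩
  · rw [← h a (le_max_left _ _)]; exact h2
  · rw [← h a' (le_max_right _ _)]; exact h3

theorem w_eq_zero {g : ℕ → ℕ} {a : ℕ} : w g a = 0 ↔ ∀ a', ¬ W g a a' := by
  classical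
  unfold w
  split_ifs with h
  · constructor
    · intro h1; exact h1.elim
    · intro h1; obtain ⟨a', ha'⟩ := h; exact absurd ha' (h1 a')
  · constructor
    · intro _ a' ha'; exact h ⟨a', ha'⟩
    · intro _; rfl

theorem w_eq_succ {g : ℕ → ℕ} {a b : ℕ} : w g a = b + 1 ↔ (W g a b ∧ ∀ c < b, ¬ W g a c) := by
  classical
  unfold w
  split_ifs with h
  · constructor
    · intro h1
      have h2 : Nat.find h = b := by omega
      rw [← h2]
      exact ⟨Nat.find_spec h, fun c hc => Nat.find_min h hc⟩
    · rintro ⟨h1, h2⟩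
      have : Nat.find h = b := by
        rw [Nat.find_eq_iff]
        exact ⟨h1, fun n hn => h2 n hn⟩
      omega
  · constructor
    · intro h1; exact h1.elim
    · rintro ⟨h1, -⟩; exact absurd ⟨b, h1⟩ h

/-- The set of the sequences `hh g` is closed. -/
theorem hh_closed (h : ℕ → ℕ × ℕ) (H : ∀ n, ∃ g, ∀ m < n, hh g m = h m) :
    hh (fun n => (h n).1) = h := by
  funext a
  have hg : ∀ n, ∃ g : ℕ → ℕ, (∀ m < n, g m = (h m).1) ∧ (∀ m < n, w g m = (h m).2) := by
    intro n
    obtain ⟨g, hg⟩ := H n
    refine ⟨g, fun m hm => ?_, fun m hm => ?_⟩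
    · rw [← hg m hm]; rfl
    · rw [← hg m hm]; rfl
  suffices hs : w (fun n => (h n).1) a = (h a).2 by
    unfold hh
    rw [hs]
  rcases hcase : (h a).2 with _ | b
  · rw [w_eq_zero]
    intro a' ha'
    obtain ⟨g, hg1, hg2⟩ := hg (max a a' + 1)
    have h1 : W g a a' := W_local (fun n hn => (hg1 n (Nat.lt_succ_of_le hn)).symm) ha'
    have h2 : w g a = 0 := by
      rw [hg2 a (Nat.lt_succ_of_le (le_max_left _ _)), hcase]
    exact (w_eq_zero.mp h2) a' h1
  · rw [w_eq_succ]
    obtain ⟨g, hg1, hg2⟩ := hg (max a b + 1)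
    have h2 : w g a = b + 1 := by
      rw [hg2 a (Nat.lt_succ_of_le (le_max_left _ _)), hcase]
    obtain ⟨h3, h4⟩ := w_eq_succ.mp h2
    constructor
    · exact W_local (fun n hn => hg1 n (Nat.lt_succ_of_le hn)) h3
    · intro c hc hW
      apply h4 c hc
      refine W_local (fun n hn => (hg1 n (Nat.lt_succ_of_le ?_)).symm) hW
      exact le_trans hn (max_le_max le_rfl hc.le)

/-- The set of the sequences `xg g`, `g` good, is closed. -/
theorem xg_closed (x : ℕ → Lab) (H : ∀ i, ∃ g, Good g ∧ res x i = xs g i) :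
    ∃ g, Good g ∧ x = xg g := by
  choose G hG hGx using H
  have hx : ∀ i j, i < j → x i = res (hh (G j)) (nxt (G j) (xs (G j) i) + 1) := by
    intro i j hij
    have h1 := hGx j
    rw [← res_xg] at h1
    exact res_eq_iff.mp h1 i hij
  have hlen : ∀ i j, i < j → (x i).length = nxt (G j) (xs (G j) i) + 1 := by
    intro i j hij
    rw [hx i j hij, res_length]
  have hge : ∀ i, i < (x i).length := by
    intro i
    rw [hlen i (i + 1) (Nat.lt_succ_self i)]
    have h1 := (nxt_cand (hG (i + 1)) i).1
    rw [xs_length] at h1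
    omega
  -- the limit of the functions `hh (G j)`
  obtain ⟨h, hh1⟩ : ∃ h : ℕ → ℕ × ℕ, ∀ n j, n < j → hh (G j) n = h n := by
    refine ⟨fun n => hh (G (n + 1)) n, fun n j hj => ?_⟩
    have h1 := hx n j hj
    have h2 := hx n (n + 1) (Nat.lt_succ_self n)
    have h3 := hlen n j hj
    have h4 := hlen n (n + 1) (Nat.lt_succ_self n)
    have h5 := hge n
    rw [← h3] at h1
    rw [← h4] at h2
    exact (res_eq_iff.mp (h1.symm.trans h2)) n h5
  obtain ⟨g, hgh⟩ : ∃ g : ℕ → ℕ, hh g = h :=
    ⟨_, hh_closed h (fun n => ⟨G n, fun m hm => hh1 m n hm⟩)⟩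
  have hgG : ∀ n j, n < j → (G j) n = g n ∧ w (G j) n = w g n := by
    intro n j hj
    have h1 := hh1 n j hj
    rw [← hgh] at h1
    unfold hh at h1
    exact Prod.mk.injEq _ _ _ _ |>.mp h1
  have hcand : ∀ (s : List Lab) (a j : ℕ), a < j → (cand (G j) s a ↔ cand g s a) := by
    intro s a j haj
    obtain ⟨h1, h2⟩ := hgG a j haj
    unfold cand
    rw [h1, h2]
    have h3 : A (G j) a ↔ A g a :=
      ⟨A_local (fun n hn => (hgG n j (hn.trans haj)).1),
        A_local (fun n hn => (hgG n j (hn.trans haj)).1.symm)⟩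
    rw [h3]
  have main : ∀ i, res x i = xs g i ∧ (∃ a, cand g (xs g i) a) := by
    intro i
    induction i with
    | zero =>
      refine ⟨rfl, ?_⟩
      have h0 := hlen 0 1 Nat.zero_lt_one
      set j := (x 0).length + 1 with hj
      have h1 := hlen 0 j (by omega)
      have h2 := nxt_cand (hG j) 0
      exact ⟨_, (hcand _ _ j (by omega)).mp h2⟩
    | succ i ih =>
      obtain ⟨ih1, ih2⟩ := ih
      -- the value at `i`
      have hval : x i = res (hh g) (nxt g (xs g i) + 1) := by
        set j := (x i).length + i + 1 with hj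
        have h1 := hlen i j (by omega)
        have h2 := nxt_cand (hG j) i
        have h3 : xs (G j) i = xs g i := by
          rw [← ih1]
          have h4 := hGx j
          rw [← res_xg] at h4
          rw [res_mono_eq h4 (by omega : i ≤ j), res_xg]
        rw [h3] at h1 h2
        have h5 : nxt g (xs g i) = nxt (G j) (xs g i) := by
          apply le_antisymm
          · exact Nat.sInf_le ((hcand _ _ j (by omega)).mp h2)
          · have h6 : cand g (xs g i) (nxt g (xs g i)) := Nat.sInf_mem ih2
            have h7 : nxt g (xs g i) ≤ nxt (G j) (xs g i) :=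
              Nat.sInf_le ((hcand _ _ j (by omega)).mp h2)
            exact Nat.sInf_le ((hcand _ _ j (by omega)).mpr h6)
        rw [hx i j (by omega), h3, ← h5]
        apply res_eq_iff.mpr
        intro m hm
        rw [hh1 m j (by omega), hgh]
      have hres : res x (i + 1) = xs g (i + 1) := by
        rw [res_succ, hval, ih1]
        rfl
      refine ⟨hres, ?_⟩
      set j := (x (i + 1)).length + i + 2 with hj
      have h1 := hlen (i + 1) j (by omega)
      have h2 := nxt_cand (hG j) (i + 1)
      have h3 : xs (G j) (i + 1) = xs g (i + 1) := by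
        rw [← hres]
        have h4 := hGx j
        rw [← res_xg] at h4
        rw [res_mono_eq h4 (by omega : i + 1 ≤ j), res_xg]
      rw [h3] at h1 h2
      exact ⟨_, (hcand _ _ j (by omega)).mp h2⟩
  refine ⟨g, fun i => (main i).2, ?_⟩
  apply eq_of_res
  intro i
  rw [(main i).1, res_xg]

/-- If infinitely many stages of `x` are switched then `x` comes from a good function. -/
theorem of_tau_infinite (x : ℕ → Lab) (H : ∀ n, ∃ i, n ≤ i ∧ τ (res x (i + 1))) :
    ∃ g, Good g ∧ x = xg g := by
  apply xg_closed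
  intro n
  obtain ⟨i, hi, g, hg, k, hk⟩ := H n
  refine ⟨g, hg, ?_⟩
  rw [← res_xg] at hk ⊢
  have h1 : i + 1 = 2 * k + 1 := res_len_eq hk
  rw [← h1] at hk
  exact res_mono_eq hk (by omega)

/-- The square of a switched stage. -/
theorem tau_square {t : List Lab} (ht : τ t) :
    ∃ g, Good g ∧ ∃ i, t = xs g (i + 1) ∧ va t = nxt g (xs g i) ∧ vb t = g (va t) := by
  obtain ⟨g, hg, k, rfl⟩ := ht
  refine ⟨g, hg, 2 * k, rfl, ?_⟩
  obtain ⟨-, -, -, h4, h5⟩ := nxt_cand hg (2 * k)
  have hw : wish (xs g (2 * k + 1)) = (nxt g (xs g (2 * k)), g (nxt g (xs g (2 * k)))) := by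
    have : xs g (2 * k + 1) = res (hh g) (nxt g (xs g (2 * k)) + 1) :: xs g (2 * k) := rfl
    rw [this, wish_cons, xs_length, if_pos (by omega), off_res]
    rfl
  have ha : va (xs g (2 * k + 1)) = nxt g (xs g (2 * k)) := by
    unfold va
    rw [hw]
    exact if_neg h4
  have hb : vb (xs g (2 * k + 1)) = g (nxt g (xs g (2 * k))) := by
    unfold vb
    rw [hw]
    exact if_neg h5
  exact ⟨ha, by rw [hb, ha]⟩

theorem tau_va_even {t : List Lab} (ht : τ t) : va t % 2 = 0 := by
  obtain ⟨g, hg, i, -, h2, -⟩ := tau_square ht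
  rw [h2]
  exact A_even (nxt_cand hg i).2.1

/-- In a sequence coming from the good function `g`, switched squares use edges of `g` at dead
ends of `g`. -/
theorem tau_square_xg {g : ℕ → ℕ} (hg : Good g) {i : ℕ} (ht : τ (res (xg g) (i + 1))) :
    A g (va (res (xg g) (i + 1))) ∧ w g (va (res (xg g) (i + 1))) = 0 ∧
      vb (res (xg g) (i + 1)) = g (va (res (xg g) (i + 1))) := by
  obtain ⟨g', hg', k, hk⟩ := ht
  have h1 : i + 1 = 2 * k + 1 := by
    rw [← res_xg] at hk
    exact res_len_eq hk
  have hi : i = 2 * k := by omega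
  subst hi
  have hτ : τ (xs g (2 * k + 1)) := ⟨g, hg, k, rfl⟩
  rw [res_xg]
  obtain ⟨h1, h2, h3, h4, h5⟩ := nxt_cand hg (2 * k)
  have hw : wish (xs g (2 * k + 1)) = (nxt g (xs g (2 * k)), g (nxt g (xs g (2 * k)))) := by
    have : xs g (2 * k + 1) = res (hh g) (nxt g (xs g (2 * k)) + 1) :: xs g (2 * k) := rfl
    rw [this, wish_cons, xs_length, if_pos (by omega), off_res]
    rfl
  have ha : va (xs g (2 * k + 1)) = nxt g (xs g (2 * k)) := by
    unfold va
    rw [hw]
    exact if_neg h4
  have hb : vb (xs g (2 * k + 1)) = g (nxt g (xs g (2 * k))) := by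
    unfold vb
    rw [hw]
    exact if_neg h5
  rw [hb, ha]
  exact ⟨h2, h3, rfl⟩

/-! ## The family -/

open Classical in
/-- Switching. -/
noncomputable def sw (x : ℕ → Lab) (p : ℕ × Bool) : ℕ × Bool :=
  if τ (res x (p.1 + 1)) then p else (p.1, !p.2)

theorem sw_sw (x : ℕ → Lab) (p : ℕ × Bool) : sw x (sw x p) = p := by
  classical
  unfold sw
  split_ifs with h1 h2 <;> simp_all

/-- The member of the family with index `x`. -/
noncomputable def M (x : ℕ → Lab) (n : ℕ) : ℕ := rgt x (sw x ((eL x).symm n))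

theorem M_bijective (x : ℕ → Lab) : Function.Bijective (M x) := by
  have h1 : Function.Bijective (sw x) := Function.Involutive.bijective (sw_sw x)
  have h2 : Function.Bijective (rgt x) := ⟨rgt_injective x, rgt_surjective x⟩
  exact h2.comp (h1.comp (eL x).symm.bijective)

/-- The edges of the matching with index `x`. -/
def Edge (t : List Lab) (n m : ℕ) : Prop :=
  (τ t ∧ ((n = va t ∧ m = vb t) ∨ (n = va' t ∧ m = vb' t))) ∨ (¬ τ t ∧ P t n m)

theorem M_lft (x : ℕ → Lab) (p : ℕ × Bool) : M x (lft x p) = rgt x (sw x p) := by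
  unfold M
  congr 2
  exact (eL x).symm_apply_apply p

theorem M_eq_iff (x : ℕ → Lab) (n m : ℕ) :
    M x n = m ↔ ∃ i, Edge (res x (i + 1)) n m := by
  classical
  constructor
  · intro h
    obtain ⟨⟨i, e⟩, rfl⟩ := lft_surjective x n
    rw [M_lft] at h
    refine ⟨i, ?_⟩
    by_cases ht : τ (res x (i + 1))
    · left
      refine ⟨ht, ?_⟩
      have h1 : sw x (i, e) = (i, e) := by unfold sw; exact if_pos ht
      rw [h1] at h
      cases e
      · left; exact ⟨rfl, h.symm⟩
      · right; exact ⟨rfl, h.symm⟩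
    · right
      refine ⟨ht, ?_⟩
      have h1 : sw x (i, e) = (i, !e) := by unfold sw; exact if_neg ht
      rw [h1] at h
      cases e
      · left; exact ⟨rfl, h.symm⟩
      · right; exact ⟨rfl, h.symm⟩
  · rintro ⟨i, ⟨ht, h⟩ | ⟨ht, h⟩⟩
    · have h1 : ∀ e, sw x (i, e) = (i, e) := fun e => by unfold sw; exact if_pos ht
      rcases h with ⟨rfl, rfl⟩ | ⟨rfl, rfl⟩
      · have := M_lft x (i, false)
        rw [h1] at this
        exact this
      · have := M_lft x (i, true)
        rw [h1] at this
        exact this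
    · have h1 : ∀ e, sw x (i, e) = (i, !e) := fun e => by unfold sw; exact if_neg ht
      rcases h with ⟨rfl, rfl⟩ | ⟨rfl, rfl⟩
      · have := M_lft x (i, false)
        rw [h1] at this
        exact this
      · have := M_lft x (i, true)
        rw [h1] at this
        exact this

theorem Edge.notMem {x : ℕ → Lab} {i n m : ℕ} (h : Edge (res x (i + 1)) n m) :
    n ∉ D (res x i) := by
  rcases h with ⟨-, ⟨rfl, -⟩ | ⟨rfl, -⟩⟩ | ⟨-, ⟨rfl, -⟩ | ⟨rfl, -⟩⟩
  · exact va_notMem (res x (i + 1))
  · exact va'_notMem (res x (i + 1))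
  · exact va_notMem (res x (i + 1))
  · exact va'_notMem (res x (i + 1))

theorem Edge.mem {x : ℕ → Lab} {i n m : ℕ} (h : Edge (res x (i + 1)) n m) :
    n ∈ D (res x (i + 1)) := by
  rcases h with ⟨-, ⟨rfl, -⟩ | ⟨rfl, -⟩⟩ | ⟨-, ⟨rfl, -⟩ | ⟨rfl, -⟩⟩
  · exact lft_mem x i false
  · exact lft_mem x i true
  · exact lft_mem x i false
  · exact lft_mem x i true

theorem Edge.cases {t : List Lab} {n m : ℕ} (h : Edge t n m) :
    NX t n m ∨ (τ t ∧ n = va t ∧ m = vb t) := by
  rcases h with ⟨ht, h | h⟩ | ⟨-, h⟩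
  · exact Or.inr ⟨ht, h⟩
  · exact Or.inl (Or.inr h)
  · exact Or.inl (Or.inl h)

/-- The value `M x n` only depends on finitely many labels. -/
theorem M_local (x : ℕ → Lab) (n : ℕ) : ∃ i, ∀ y, res y i = res x i → M y n = M x n := by
  obtain ⟨i, hi⟩ := (M_eq_iff x n (M x n)).mp rfl
  refine ⟨i + 1, fun y hy => ?_⟩
  rw [M_eq_iff]
  exact ⟨i, by rw [hy]; exact hi⟩

/-- The decoding property: the value at a suitable place determines the next label. -/
theorem M_decode (s : List Lab) : ∃ n, ∀ (i : ℕ) (y z : ℕ → Lab), res y i = s → res z i = s →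
    M y n = M z n → res y (i + 1) = res z (i + 1) := by
  refine ⟨2 * N s + 1, fun i y z hy hz h => ?_⟩
  have key : ∀ y : ℕ → Lab, res y i = s →
      ∃ j, i ≤ j ∧ NX (res y (j + 1)) (2 * N s + 1) (M y (2 * N s + 1)) := by
    intro y hy
    obtain ⟨j, hj⟩ := (M_eq_iff y (2 * N s + 1) (M y (2 * N s + 1))).mp rfl
    refine ⟨j, ?_, ?_⟩
    · by_contra hlt
      have h1 : 2 * N s + 1 ∈ D (res y i) := D_mono y (by omega) hj.mem
      rw [hy] at h1
      have := D_lt h1
      omega
    · rcases hj.cases with h1 | ⟨h1, h2, -⟩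
      · exact h1
      · have := tau_va_even h1
        omega
  obtain ⟨j, hj, hj2⟩ := key y hy
  obtain ⟨k, hk, hk2⟩ := key z hz
  rw [← h] at hk2
  have h1 := NX_unique hj2 hk2
  have h2 : j + 1 = k + 1 := res_len_eq h1
  have h3 : j = k := by omega
  subst h3
  exact res_mono_eq h1 (by omega)

theorem M_closed : IsClosed (Set.range M) := by
  apply isClosed_of_closure_subset
  intro f hf
  have happ : ∀ n, ∃ y : ℕ → Lab, ∀ m < n, M y m = f m := by
    intro n
    have hopen : IsOpen {g : ℕ → ℕ | ∀ m < n, g m = f m} := by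
      have : {g : ℕ → ℕ | ∀ m < n, g m = f m} = ⋂ m ∈ Set.Iio n, (fun g : ℕ → ℕ => g m) ⁻¹' {f m} := by
        ext g
        simp
      rw [this]
      apply (Set.finite_Iio n).isOpen_biInter
      intro m _
      exact (isOpen_discrete _).preimage (continuous_apply m)
    obtain ⟨g, hg1, y, rfl⟩ := mem_closure_iff.mp hf _ hopen (fun m _ => rfl)
    exact ⟨y, hg1⟩
  have hstab : ∀ i, ∃ (n : ℕ) (s : List Lab), ∀ y : ℕ → Lab, (∀ m < n, M y m = f m) → res y i = s := by
    intro i
    induction i with
    | zero => exact ⟨0, [], fun y _ => rfl⟩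
    | succ i ih =>
      obtain ⟨n, s, hs⟩ := ih
      obtain ⟨k, hk⟩ := M_decode s
      obtain ⟨y, hy⟩ := happ (max n (k + 1))
      refine ⟨max n (k + 1), res y (i + 1), fun z hz => ?_⟩
      apply hk i z y
      · exact hs z (fun m hm => hz m (lt_of_lt_of_le hm (le_max_left _ _)))
      · exact hs y (fun m hm => hy m (lt_of_lt_of_le hm (le_max_left _ _)))
      · have h1 : k < max n (k + 1) := lt_of_lt_of_le (Nat.lt_succ_self k) (le_max_right _ _)
        rw [hz k h1, hy k h1]
  choose n s hs using hstab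
  -- the limit
  choose Y hY using happ
  let x : ℕ → Lab := fun i => Y (n (i + 1)) i
  have hx : ∀ i, res x i = s i := by
    intro i
    have h1 : ∀ j ≤ i, res x j = s j := by
      intro j hj
      induction j with
      | zero =>
        exact hs 0 (Y (n 0)) (hY (n 0))
      | succ j ih =>
        have h2 : res (Y (n (j + 1))) (j + 1) = s (j + 1) := hs (j + 1) _ (hY _)
        have h3 : res (Y (max (n j) (n (j + 1)))) (j + 1) = s (j + 1) :=
          hs (j + 1) _ (fun m hm => hY _ m (lt_of_lt_of_le hm (le_max_right _ _)))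
        have h4 : res (Y (max (n j) (n (j + 1)))) j = s j :=
          hs j _ (fun m hm => hY _ m (lt_of_lt_of_le hm (le_max_left _ _)))
        have h5 : res (Y (n (j + 1))) j = s j := by
          rw [← h4]
          exact res_mono_eq (h2.trans h3.symm) (Nat.le_succ j)
        have h6 : res x j = s j := ih (by omega)
        rw [← h2, res_succ, res_succ, h6, h5]
    exact h1 i le_rfl
  refine ⟨x, ?_⟩
  funext k
  obtain ⟨i, hi⟩ := M_local x k
  have h1 := hs i (Y (max (n i) (k + 1)))
    (fun m hm => hY _ m (lt_of_lt_of_le hm (le_max_left _ _)))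
  rw [← hx i] at h1
  rw [← hi _ h1]
  exact hY _ k (lt_of_lt_of_le (Nat.lt_succ_self k) (le_max_right _ _))

/-! ## Eventual difference -/

/-- Agreements of `M x` and `M y` in which the `x` edge is a switched offered edge. -/
theorem offered_finite {x y : ℕ → Lab} (hxy : x ≠ y) :
    {n | ∃ i, τ (res x (i + 1)) ∧ n = va (res x (i + 1)) ∧ M y n = vb (res x (i + 1))}.Finite := by
  by_contra hinf
  have hinf' : {n | ∃ i, τ (res x (i + 1)) ∧ n = va (res x (i + 1)) ∧
    M y n = vb (res x (i + 1))}.Infinite := hinf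
  obtain ⟨g, hg, rfl⟩ : ∃ g, Good g ∧ x = xg g := by
    apply of_tau_infinite
    intro k
    by_contra hcon
    push Not at hcon
    apply hinf
    apply Set.Finite.subset (Finset.finite_toSet (D (res x k)))
    rintro n ⟨i, h1, h2, -⟩
    have h3 : i < k := by
      by_contra h4
      exact hcon i (by omega) h1
    have h5 := lft_mem x i false
    have h6 : lft x (i, false) = va (res x (i + 1)) := rfl
    rw [h6, ← h2] at h5
    exact D_mono x (by omega) h5
  -- all these places are dead ends of `g` at which `M y` agrees with `g`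
  have hS : ∀ n ∈ {n | ∃ i, τ (res (xg g) (i + 1)) ∧ n = va (res (xg g) (i + 1)) ∧
      M y n = vb (res (xg g) (i + 1))}, A g n ∧ w g n = 0 ∧ M y n = g n := by
    rintro n ⟨i, h1, h2, h3⟩
    obtain ⟨h4, h5, h6⟩ := tau_square_xg hg h1
    rw [← h2] at h4 h5 h6
    exact ⟨h4, h5, h3.trans h6⟩
  set S := {n | ∃ i, τ (res (xg g) (i + 1)) ∧ n = va (res (xg g) (i + 1)) ∧
      M y n = vb (res (xg g) (i + 1))} with hSdef
  -- split according to the kind of the edge in `y`
  have hsplit : S ⊆ {n | n ∈ S ∧ ∃ j, τ (res y (j + 1)) ∧ n = va (res y (j + 1))} ∪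
      {n | n ∈ S ∧ ∃ j, P (res y (j + 1)) n (g n)} := by
    intro n hn
    obtain ⟨h1, h2, h3⟩ := hS n hn
    obtain ⟨j, hj⟩ := (M_eq_iff y n (g n)).mp h3
    rcases hj.cases with (h4 | ⟨h4, -⟩) | ⟨h4, h5, -⟩
    · right; exact ⟨hn, j, h4⟩
    · exfalso
      have h5 := va'_odd (res y (j + 1))
      have h6 := A_even h1
      omega
    · left; exact ⟨hn, j, h4, h5⟩
  rcases Set.infinite_union.mp (hinf'.mono hsplit) with hI | hI
  · -- `y` comes from a good function as well
    obtain ⟨g', hg', rfl⟩ : ∃ g', Good g' ∧ y = xg g' := by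
      apply of_tau_infinite
      intro k
      by_contra hcon
      push Not at hcon
      apply hI
      apply Set.Finite.subset (Finset.finite_toSet (D (res y k)))
      rintro n ⟨-, j, h1, h2⟩
      have h3 : j < k := by
        by_contra h4
        exact hcon j (by omega) h1
      have h5 := lft_mem y j false
      have h6 : lft y (j, false) = va (res y (j + 1)) := rfl
      rw [h6, ← h2] at h5
      exact D_mono y (by omega) h5
    apply hxy
    have : g = g' := by
      apply A_inter
      refine hI.mono ?_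
      rintro n ⟨h1, j, h2, h3⟩
      refine ⟨(hS n h1).1, ?_⟩
      have := (tau_square_xg hg' h2).1
      rw [← h3] at this
      exact this
    rw [this]
  · -- two coding edges of `y` in `g` contradict the dead end condition
    obtain ⟨n1, ⟨hn1, j1, hj1⟩⟩ := hI.nonempty
    obtain ⟨n2, ⟨hn2, j2, hj2⟩, hn2'⟩ := hI.exists_notMem_finset (D (res y (j1 + 1)))
    have hlt : j1 < j2 := by
      by_contra hle
      apply hn2'
      have h1 : n2 ∈ D (res y (j2 + 1)) := by
        rcases hj2 with ⟨h2, -⟩ | ⟨h2, -⟩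
        · rw [h2]; exact lft_mem y j2 false
        · rw [h2]; exact lft_mem y j2 true
      exact D_mono y (by omega) h1
    obtain ⟨h1, h2, h3⟩ := hS n1 hn1
    obtain ⟨h4, h5, h6⟩ := hS n2 hn2
    apply (w_eq_zero.mp h2) n2
    refine ⟨h4, _, _, hj1, hj2, res_suffix y (by omega), ?_⟩
    intro heq
    have := res_len_eq heq
    omega

theorem M_eventually_different {x y : ℕ → Lab} (hxy : x ≠ y) : {n | M x n = M y n}.Finite := by
  obtain ⟨k, hk⟩ : ∃ k, x k ≠ y k := by
    by_contra hcon
    push Not at hcon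
    exact hxy (funext hcon)
  have hF1 : {n | ∃ i j, NX (res x (i + 1)) n (M x n) ∧ NX (res y (j + 1)) n (M x n)}.Finite := by
    apply Set.Finite.subset (Finset.finite_toSet (D (res x k)))
    rintro n ⟨i, j, h1, h2⟩
    have h3 := NX_unique h1 h2
    have h4 : i + 1 = j + 1 := res_len_eq h3
    have h5 : i = j := by omega
    subst h5
    have h6 : i < k := by
      by_contra h7
      exact hk (res_eq_iff.mp h3 k (by omega))
    have h8 : n ∈ D (res x (i + 1)) := by
      rcases h1 with (⟨h9, -⟩ | ⟨h9, -⟩) | ⟨h9, -⟩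
      · rw [h9]; exact lft_mem x i false
      · rw [h9]; exact lft_mem x i true
      · rw [h9]; exact lft_mem x i true
    exact D_mono x (by omega) h8
  apply Set.Finite.subset (hF1.union ((offered_finite hxy).union (offered_finite hxy.symm)))
  intro n hn
  have hn' : M x n = M y n := hn
  obtain ⟨i, hi⟩ := (M_eq_iff x n (M x n)).mp rfl
  obtain ⟨j, hj⟩ := (M_eq_iff y n (M x n)).mp hn'.symm
  rcases hi.cases with h1 | ⟨h1, h2, h3⟩
  · rcases hj.cases with h4 | ⟨h4, h5, h6⟩
    · left; exact ⟨i, j, h1, h4⟩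
    · right; right; exact ⟨j, h4, h5, h6⟩
  · right; left
    exact ⟨i, h1, h2, hn'.symm.trans h3⟩

/-! ## Maximality -/

theorem W_trans {g : ℕ → ℕ} {a b c : ℕ} (h1 : W g a b) (h2 : W g b c) : W g a c := by
  obtain ⟨-, t1, t2, h3, h4, h5, h6⟩ := h1
  obtain ⟨h7, t3, t4, h8, h9, h10, h11⟩ := h2
  have h12 : t2 = t3 := P_unique h4 h8
  subst h12
  refine ⟨h7, t1, t4, h3, h9, h5.trans h10, ?_⟩
  intro h13
  subst h13
  exact h6 (h5.eq_of_length (le_antisymm h5.length_le h10.length_le))

theorem D_suffix {t s : List Lab} (h : t <:+ s) : D t ⊆ D s := by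
  induction s with
  | nil =>
    rw [List.suffix_nil] at h
    subst h
    exact Finset.Subset.refl _
  | cons v s ih =>
    rcases List.suffix_cons_iff.mp h with h | h
    · subst h; exact Finset.Subset.refl _
    · refine (ih h).trans ?_
      rw [D_cons]
      exact (Finset.subset_insert _ _).trans (Finset.subset_insert _ _)

theorem W_lt {g : ℕ → ℕ} {a b : ℕ} (ha : A g a) (h0 : 0 < a) (h : W g a b) :
    a < max b (g b) := by
  obtain ⟨-, t, t', h1, h2, h3, h4⟩ := h
  have hev := A_even ha
  -- `a` is used at the stage `t`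
  have h5 : a ∈ D t := by
    cases t with
    | nil =>
      exfalso
      rcases h1 with ⟨h6, -⟩ | ⟨h6, -⟩
      · have : va [] = 0 := by unfold va wish; simp [D_nil]
        omega
      · have := va'_odd []
        omega
    | cons v s =>
      rw [D_cons]
      rcases h1 with ⟨h6, -⟩ | ⟨h6, -⟩
      · rw [h6]; exact Finset.mem_insert_self _ _
      · rw [h6]; exact Finset.mem_insert_of_mem (Finset.mem_insert_self _ _)
  cases t' with
  | nil =>
    rw [List.suffix_nil] at h3
    exact absurd h3 h4
  | cons v s =>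
    rcases List.suffix_cons_iff.mp h3 with h6 | h6
    · exact absurd h6 h4
    · have h7 : a < N s := D_lt (D_suffix h6 h5)
      have h8 : N s < dd (v :: s) := N_lt_dd (v :: s)
      rcases h2 with ⟨-, h9⟩ | ⟨h9, -⟩
      · have := dd_le_vb' (v :: s)
        exact lt_max_of_lt_right (by omega)
      · have := dd_lt_va' (v :: s)
        exact lt_max_of_lt_left (by omega)

/-- If `g` has infinitely many dead ends, then it is caught by the member coming from `g`. -/
theorem catch_good {g : ℕ → ℕ} (hinj : Function.Injective g)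
    (hX : {a | A g a ∧ w g a = 0}.Infinite) : ∃ x, {n | M x n = g n}.Infinite := by
  have hg : Good g := by
    intro i
    have hfin : ((Finset.range i : Set ℕ) ∪ (D (xs g i) : Set ℕ) ∪
        (g ⁻¹' (R (xs g i) : Set ℕ))).Finite :=
      ((Finset.finite_toSet _).union (Finset.finite_toSet _)).union
        ((Finset.finite_toSet _).preimage hinj.injOn)
    obtain ⟨a, ⟨h1, h2⟩, h3⟩ := (hX.sdiff hfin).nonempty
    simp only [Set.mem_union, not_or, Finset.coe_range, Set.mem_Iio, Set.mem_preimage,
      Finset.mem_coe] at h3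
    exact ⟨a, by rw [xs_length]; omega, h1, h2, h3.1.2, h3.2⟩
  refine ⟨xg g, ?_⟩
  apply Set.infinite_of_not_bddAbove
  rintro ⟨B, hB⟩
  have h1 := nxt_cand hg (2 * (B + 1))
  set a := nxt g (xs g (2 * (B + 1))) with ha
  have h2 : τ (res (xg g) (2 * (B + 1) + 1)) := ⟨g, hg, B + 1, by rw [res_xg]⟩
  obtain ⟨h3, h4, h5⟩ := tau_square_xg hg h2
  have h6 : va (res (xg g) (2 * (B + 1) + 1)) = a := by
    have hw : wish (xs g (2 * (B + 1) + 1)) = (a, g a) := by
      have : xs g (2 * (B + 1) + 1) = res (hh g) (a + 1) :: xs g (2 * (B + 1)) := rfl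
      rw [this, wish_cons, xs_length, if_pos (by omega), off_res]
      rfl
    rw [res_xg]
    unfold va
    rw [hw]
    exact if_neg h1.2.2.2.1
  have h7 : M (xg g) a = g a := by
    rw [M_eq_iff]
    refine ⟨2 * (B + 1), Or.inl ⟨h2, Or.inl ⟨h6.symm, ?_⟩⟩⟩
    rw [h5, h6]
  have h8 : a ≤ B := hB h7
  have h9 := h1.1
  rw [xs_length] at h9
  omega

/-- If `g` has only finitely many dead ends, then it agrees infinitely often with a coding
matching and hence with some member. -/
theorem catch_bad {g : ℕ → ℕ} (hX : {a | A g a ∧ w g a = 0}.Finite) :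
    ∃ x, {n | M x n = g n}.Infinite := by
  obtain ⟨B, hB⟩ : ∃ B, ∀ a, A g a → w g a = 0 → a < B ∧ g a < B := by
    obtain ⟨B1, hB1⟩ := hX.bddAbove
    obtain ⟨B2, hB2⟩ := (hX.image g).bddAbove
    refine ⟨max B1 B2 + 1, fun a h1 h2 => ?_⟩
    have h3 : a ≤ B1 := hB1 ⟨h1, h2⟩
    have h4 : g a ≤ B2 := hB2 ⟨a, ⟨h1, h2⟩, rfl⟩
    omega
  obtain ⟨a0, ha0, hBa0⟩ : ∃ a, A g a ∧ B < a := by
    obtain ⟨a, h1, h2⟩ := (A_infinite g).exists_gt B
    exact ⟨a, h1, h2⟩
  have hstep : ∀ p : {a // A g a ∧ (a = a0 ∨ W g a0 a)},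
      ∃ q : {a // A g a ∧ (a = a0 ∨ W g a0 a)}, W g p.1 q.1 := by
    rintro ⟨a, h1, h2⟩
    have h3 : w g a ≠ 0 := by
      intro h4
      obtain ⟨h5, h6⟩ := hB a h1 h4
      rcases h2 with h2 | h2
      · omega
      · have := W_lt ha0 (by omega) h2
        have h7 : max a (g a) < B := max_lt h5 h6
        omega
    rw [Ne, w_eq_zero] at h3
    push Not at h3
    obtain ⟨b, hb⟩ := h3
    refine ⟨⟨b, hb.1, Or.inr ?_⟩, hb⟩
    rcases h2 with h2 | h2
    · subst h2; exact hb
    · exact W_trans h2 hb
  choose F hF using hstep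
  let q : ℕ → {a // A g a ∧ (a = a0 ∨ W g a0 a)} := fun n =>
    Nat.rec ⟨a0, ha0, Or.inl rfl⟩ (fun _ p => F p) n
  have hq : ∀ n, W g (q n).1 (q (n + 1)).1 := fun n => hF (q n)
  have ht : ∀ n, ∃ t, P t (q n).1 (g (q n).1) := by
    intro n
    obtain ⟨-, t, t', h1, -⟩ := hq n
    exact ⟨t, h1⟩
  choose t ht using ht
  have hsuf : ∀ n, t n <:+ t (n + 1) ∧ t n ≠ t (n + 1) := by
    intro n
    obtain ⟨-, u, u', h1, h2, h3, h4⟩ := hq n
    rw [P_unique (ht n) h1, P_unique (ht (n + 1)) h2]
    exact ⟨h3, h4⟩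
  have hlt : ∀ n, (t n).length < (t (n + 1)).length := by
    intro n
    rcases lt_or_eq_of_le (hsuf n).1.length_le with h | h
    · exact h
    · exact absurd ((hsuf n).1.eq_of_length h) (hsuf n).2
  have hmono : StrictMono (fun n => (t n).length) := strictMono_nat_of_lt_succ hlt
  obtain ⟨x, hx⟩ := exists_limit t (fun n => (hsuf n).1) (fun n => hmono.id_le n)
  have hinj : Function.Injective (fun n => (q n).1) := by
    intro m n hmn
    have hmn' : (q m).1 = (q n).1 := hmn
    have h1 := ht m
    rw [hmn'] at h1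
    have h2 : t m = t n := P_unique h1 (ht n)
    exact hmono.injective (congrArg List.length h2)
  refine ⟨x, ?_⟩
  by_contra hcon
  rw [Set.not_infinite] at hcon
  have hK : ∃ K, ∀ k, K ≤ k → τ (t k) := by
    have h1 : {k | (q k).1 ∈ {n | M x n = g n}}.Finite := hcon.preimage hinj.injOn
    obtain ⟨K, hK⟩ := h1.bddAbove
    refine ⟨K + 1, fun k hk => ?_⟩
    by_contra hτ
    have h2 : k ≤ K := by
      apply hK
      show M x (q k).1 = g (q k).1
      rw [M_eq_iff]
      have h3 : (t k).length = (t k).length - 1 + 1 := by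
        have := hmono.id_le k
        simp only [id] at this
        omega
      refine ⟨(t k).length - 1, ?_⟩
      rw [← h3, ← hx k]
      exact Or.inr ⟨hτ, ht k⟩
    omega
  obtain ⟨K, hK⟩ := hK
  obtain ⟨g', hg', rfl⟩ : ∃ g', Good g' ∧ x = xg g' := by
    apply of_tau_infinite
    intro n
    have h1 := hmono.id_le (max K (n + 1))
    simp only [id] at h1
    have h3 : (t (max K (n + 1))).length - 1 + 1 = (t (max K (n + 1))).length := by omega
    refine ⟨(t (max K (n + 1))).length - 1, by omega, ?_⟩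
    rw [h3, ← hx]
    exact hK _ (le_max_left _ _)
  have hgg : g = g' := by
    apply A_inter
    apply Set.infinite_of_injective_forall_mem (f := fun n => (q (K + 1 + n)).1)
    · intro m n hmn
      have := hinj hmn
      omega
    · intro n
      refine ⟨(q (K + 1 + n)).2.1, ?_⟩
      have h1 := hK (K + 1 + n) (by omega)
      have h2 := hmono.id_le (K + 1 + n)
      simp only [id] at h2
      have h3 : (t (K + 1 + n)).length - 1 + 1 = (t (K + 1 + n)).length := by omega
      rw [hx, ← h3] at h1
      have h4 := (tau_square_xg hg' h1).1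
      rw [h3, ← hx] at h4
      have h5 := ht (K + 1 + n)
      have h6 := A_even (q (K + 1 + n)).2.1
      rcases h5 with ⟨h7, -⟩ | ⟨h7, -⟩
      · rw [h7]; exact h4
      · have := va'_odd (t (K + 1 + n))
        omega
  subst hgg
  apply absurd hX
  apply Set.infinite_of_not_bddAbove
  rintro ⟨B', hB'⟩
  obtain ⟨a, h1, h2, h3, -, -⟩ := hg' (B' + 1)
  have h4 : a ≤ B' := hB' ⟨h2, h3⟩
  rw [xs_length] at h1
  omega

end Pool.Agent.Lib.MP_6a83a4_lc.ClosedMed
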